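import Pool.Agent.K4W.StmtsF
import Pool.Agent.Helper69_Weyl.Divisor

/-!
# K4W, row DVZ (helper65): the divisor bound
-/

set_option autoImplicit false

namespace Pool.Agent.K4W.H65

open Pool.Agent.K4W

theorem dvz_aux (K : ℕ) (hK : 1 ≤ K) :
    ∃ Z₀ : ℕ, ∀ Z : ℕ, Z₀ ≤ Z → ∀ n : ℕ, 1 ≤ n → n ≤ Z ^ K → (Nat.divisors n).card ≤ Z := by
  have hK' : (0 : ℝ) < K := by exact_mod_cast hK
  obtain ⟨C, hC1, hC⟩ := Pool.Agent.Helper69_Weyl.exists_card_divisors_le (1 / (2 * (K : ℝ)))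
    (by positivity)
  obtain ⟨Z₀, hZ₀⟩ := exists_nat_ge (C ^ 2)
  refine ⟨Z₀, fun Z hZ n hn hnZ => ?_⟩
  have hCZ : C ^ 2 ≤ (Z : ℝ) := hZ₀.trans (by exact_mod_cast hZ)
  have hZ0 : (0 : ℝ) ≤ Z := Nat.cast_nonneg _
  have h1 := hC n (by omega)
  have h2 : (n : ℝ) ^ (1 / (2 * (K : ℝ))) ≤ Real.sqrt Z := by
    have h3 : (n : ℝ) ≤ (Z : ℝ) ^ K := by exact_mod_cast hnZ
    have h4 : (n : ℝ) ^ (1 / (2 * (K : ℝ))) ≤ ((Z : ℝ) ^ K) ^ (1 / (2 * (K : ℝ))) :=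
      Real.rpow_le_rpow (Nat.cast_nonneg _) h3 (by positivity)
    refine h4.trans (le_of_eq ?_)
    rw [← Real.rpow_natCast, ← Real.rpow_mul hZ0, Real.sqrt_eq_rpow]
    congr 1
    field_simp
  have h5 : C ≤ Real.sqrt Z := Real.le_sqrt_of_sq_le hCZ
  have h6 : ((n.divisors.card : ℕ) : ℝ) ≤ (Z : ℝ) := by
    calc ((n.divisors.card : ℕ) : ℝ) ≤ C * (n : ℝ) ^ (1 / (2 * (K : ℝ))) := h1
      _ ≤ Real.sqrt Z * Real.sqrt Z :=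
        mul_le_mul h5 h2 (Real.rpow_nonneg (Nat.cast_nonneg _) _) (Real.sqrt_nonneg _)
      _ = (Z : ℝ) := Real.mul_self_sqrt hZ0
  exact_mod_cast h6

theorem dvz : DvzStmt := dvz_aux 300000 (by norm_num)

end Pool.Agent.K4W.H65
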