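import Pool.Agent.K4W.StmtsM

/-!
# K4W, row MEX (helper65): expansion of the moment
-/

set_option autoImplicit false

noncomputable section

namespace Pool.Agent.K4W.H65

open Pool.Agent.Helper69_Weyl Pool.Agent.K4W

theorem normpow (l : ℕ) (z : ℂ) : ((‖z‖ ^ (2 * l) : ℝ) : ℂ) =
    ∏ i : Fin (2 * l), (if (i : ℕ) < l then z else (starRingEnd ℂ) z) := by
  rw [Fin.prod_univ_eq_prod_range (fun i => if i < l then z else (starRingEnd ℂ) z) (2 * l),
    two_mul, Finset.prod_range_add]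
  have h1 : ∏ x ∈ Finset.range l, (if x < l then z else (starRingEnd ℂ) z) = z ^ l := by
    rw [Finset.prod_congr rfl (g := fun _ => z)
      (fun x hx => if_pos (Finset.mem_range.1 hx)), Finset.prod_const, Finset.card_range]
  have h2 : ∏ x ∈ Finset.range l, (if l + x < l then z else (starRingEnd ℂ) z) =
      ((starRingEnd ℂ) z) ^ l := by
    rw [Finset.prod_congr rfl (g := fun _ => (starRingEnd ℂ) z)
      (fun x hx => if_neg (by omega)), Finset.prod_const, Finset.card_range]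
  rw [h1, h2, ← mul_pow, Complex.mul_conj, Complex.normSq_eq_norm_sq, ← two_mul, pow_mul]
  push_cast
  rfl

theorem mex : MexStmt := by
  intro l r X w φ hr
  classical
  have hF : ∀ u : ℕ, ((‖∑ x ∈ X, w x * ee (-((((u : ℤ) * φ x : ℤ) : ℝ) / (r : ℝ)))‖ ^ (2 * l) :
      ℝ) : ℂ) = ∑ x ∈ Fintype.piFinset (fun _ : Fin (2 * l) => X),
        (∏ i : Fin (2 * l), (if (i : ℕ) < l then w (x i) else (starRingEnd ℂ) (w (x i)))) *
          ee ((u : ℝ) / (r : ℝ) * ((-(∑ i, sg l i * φ (x i)) : ℤ) : ℝ)) := by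
    intro u
    rw [normpow]
    have h1 : ∀ i : Fin (2 * l),
        (if (i : ℕ) < l then ∑ x ∈ X, w x * ee (-((((u : ℤ) * φ x : ℤ) : ℝ) / (r : ℝ))) else
          (starRingEnd ℂ) (∑ x ∈ X, w x * ee (-((((u : ℤ) * φ x : ℤ) : ℝ) / (r : ℝ))))) =
        ∑ x ∈ X, (if (i : ℕ) < l then w x else (starRingEnd ℂ) (w x)) *
          ee ((u : ℝ) / (r : ℝ) * ((-(sg l i * φ x) : ℤ) : ℝ)) := by
      intro i
      by_cases hi : (i : ℕ) < l
      · rw [if_pos hi]
        refine Finset.sum_congr rfl (fun x _ => ?_)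
        rw [if_pos hi]
        unfold sg
        rw [if_pos hi]
        congr 2
        push_cast
        ring
      · rw [if_neg hi, map_sum]
        refine Finset.sum_congr rfl (fun x _ => ?_)
        rw [if_neg hi, map_mul, conj_ee]
        unfold sg
        rw [if_neg hi]
        congr 2
        push_cast
        ring
    rw [Finset.prod_congr rfl (fun i _ => h1 i), Finset.prod_univ_sum]
    refine Finset.sum_congr rfl (fun x _ => ?_)
    rw [Finset.prod_mul_distrib, ← ee_sum]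
    congr 2
    rw [← Finset.mul_sum]
    congr 1
    push_cast
    rw [Finset.sum_neg_distrib]
  have hS : ((∑ u ∈ Finset.range r,
      ‖∑ x ∈ X, w x * ee (-((((u : ℤ) * φ x : ℤ) : ℝ) / (r : ℝ)))‖ ^ (2 * l) : ℝ) : ℂ) =
      ∑ x ∈ Fintype.piFinset (fun _ : Fin (2 * l) => X),
        (∏ i : Fin (2 * l), (if (i : ℕ) < l then w (x i) else (starRingEnd ℂ) (w (x i)))) *
          (if (r : ℤ) ∣ -(∑ i, sg l i * φ (x i)) then (r : ℂ) else 0) := by
    rw [Complex.ofReal_sum, Finset.sum_congr rfl (fun u _ => hF u), Finset.sum_comm]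
    refine Finset.sum_congr rfl (fun x _ => ?_)
    rw [← Finset.mul_sum, sum_ee_div r hr]
  have hnn : 0 ≤ ∑ u ∈ Finset.range r,
      ‖∑ x ∈ X, w x * ee (-((((u : ℤ) * φ x : ℤ) : ℝ) / (r : ℝ)))‖ ^ (2 * l) :=
    Finset.sum_nonneg (fun u _ => pow_nonneg (norm_nonneg _) _)
  have hE : ∑ u ∈ Finset.range r,
      ‖∑ x ∈ X, w x * ee (-((((u : ℤ) * φ x : ℤ) : ℝ) / (r : ℝ)))‖ ^ (2 * l) =
      ‖((∑ u ∈ Finset.range r,
      ‖∑ x ∈ X, w x * ee (-((((u : ℤ) * φ x : ℤ) : ℝ) / (r : ℝ)))‖ ^ (2 * l) : ℝ) : ℂ)‖ := by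
    rw [Complex.norm_real, Real.norm_of_nonneg hnn]
  rw [hE, hS]
  refine (norm_sum_le _ _).trans ?_
  rw [Finset.mul_sum, Finset.sum_filter]
  refine Finset.sum_le_sum (fun x _ => ?_)
  have hn : ‖∏ i : Fin (2 * l), (if (i : ℕ) < l then w (x i) else (starRingEnd ℂ) (w (x i)))‖ =
      ∏ i, ‖w (x i)‖ := by
    rw [norm_prod]
    refine Finset.prod_congr rfl (fun i _ => ?_)
    by_cases hi : (i : ℕ) < l
    · rw [if_pos hi]
    · rw [if_neg hi, RCLike.norm_conj]
  rw [norm_mul, hn]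
  by_cases hd : (r : ℤ) ∣ ∑ i, sg l i * φ (x i)
  · rw [if_pos hd, if_pos ((dvd_neg).2 hd), Complex.norm_natCast, mul_comm]
  · rw [if_neg hd, if_neg (fun h => hd ((dvd_neg).1 h)), norm_zero, mul_zero]

end Pool.Agent.K4W.H65
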