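import Pool.Agent.K4W.StmtsU

/-!
# K4W, row UNM (helper65): sizes for a large `Z`
-/

set_option autoImplicit false

namespace Pool.Agent.K4W.H65

open Pool.Agent.K4W

theorem unm_aux (K : ℕ) : ∃ Z₀ : ℕ, 100 ≤ Z₀ ∧ ∀ Z : ℕ, Z₀ ≤ Z → ∀ N : ℕ, 1 ≤ N →
    N ≤ 2 * Z ^ K → 10 ^ 9 * (N : ℝ) ^ 4 * Real.exp (-((Z : ℝ) ^ 2 / 8)) ≤ 1 ∧
      8 * (110 * (2 + Real.log (4 * (Z : ℝ) * (N : ℝ)))) ^ 4 ≤ (Z : ℝ) ^ 2 := by
  have h1 : ∀ᶠ x : ℝ in Filter.atTop, x ^ (4 * K) * Real.exp (-x) < 1 / (16 * 10 ^ 9) :=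
    (Real.tendsto_pow_mul_exp_neg_atTop_nhds_zero (4 * K)).eventually_lt_const (by positivity)
  have h2 : ∀ᶠ x : ℝ in Filter.atTop,
      ‖Real.log x‖ ≤ (1 / (220 * ((K : ℝ) + 2))) * ‖x ^ (1 / 2 : ℝ)‖ :=
    (isLittleO_log_rpow_atTop (by norm_num)).bound (by positivity)
  have h3 : ∀ᶠ x : ℝ in Filter.atTop, 2 + Real.log 8 ≤ Real.log x :=
    Real.tendsto_log_atTop.eventually_ge_atTop _
  obtain ⟨x₀, hx₀⟩ := Filter.eventually_atTop.1 (h1.and (h2.and h3))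
  obtain ⟨n, hn⟩ := exists_nat_ge x₀
  refine ⟨max n 100, le_max_right _ _, fun Z hZ N hN hNZ => ?_⟩
  have hZ100 : (100 : ℝ) ≤ Z := by exact_mod_cast (le_max_right n 100).trans hZ
  have hZn : x₀ ≤ (Z : ℝ) := hn.trans (by exact_mod_cast (le_max_left n 100).trans hZ)
  obtain ⟨g1, g2, g3⟩ := hx₀ Z hZn
  have hN1 : (1 : ℝ) ≤ N := by exact_mod_cast hN
  have hNZ' : (N : ℝ) ≤ 2 * (Z : ℝ) ^ K := by exact_mod_cast hNZ
  have hZ0 : (0 : ℝ) < Z := by linarith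
  constructor
  · have e1 : (N : ℝ) ^ 4 ≤ 16 * (Z : ℝ) ^ (4 * K) := by
      calc (N : ℝ) ^ 4 ≤ (2 * (Z : ℝ) ^ K) ^ 4 := pow_le_pow_left₀ (by positivity) hNZ' 4
        _ = 16 * (Z : ℝ) ^ (4 * K) := by
          rw [mul_pow, ← pow_mul, mul_comm K 4]
          norm_num
    have e2 : Real.exp (-((Z : ℝ) ^ 2 / 8)) ≤ Real.exp (-(Z : ℝ)) := by
      apply Real.exp_le_exp.2
      nlinarith
    calc 10 ^ 9 * (N : ℝ) ^ 4 * Real.exp (-((Z : ℝ) ^ 2 / 8))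
        ≤ 10 ^ 9 * (16 * (Z : ℝ) ^ (4 * K)) * Real.exp (-(Z : ℝ)) := by gcongr
      _ = 16 * 10 ^ 9 * ((Z : ℝ) ^ (4 * K) * Real.exp (-(Z : ℝ))) := by ring
      _ ≤ 16 * 10 ^ 9 * (1 / (16 * 10 ^ 9)) := by gcongr
      _ = 1 := by norm_num
  · have e3 : Real.log (4 * (Z : ℝ) * (N : ℝ)) ≤ Real.log 8 + ((K : ℝ) + 1) * Real.log Z := by
      have h8 : 4 * (Z : ℝ) * (N : ℝ) ≤ 8 * (Z : ℝ) ^ (K + 1) := by
        rw [pow_succ]
        nlinarith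
      calc Real.log (4 * (Z : ℝ) * (N : ℝ)) ≤ Real.log (8 * (Z : ℝ) ^ (K + 1)) :=
            Real.log_le_log (by positivity) h8
        _ = _ := by
          rw [Real.log_mul (by norm_num) (by positivity), Real.log_pow]
          push_cast
          ring
    have hlogZ : 0 ≤ Real.log (Z : ℝ) := Real.log_nonneg (by linarith)
    have e0 : 0 ≤ Real.log (4 * (Z : ℝ) * (N : ℝ)) := Real.log_nonneg (by nlinarith)
    have e4 : 110 * (2 + Real.log (4 * (Z : ℝ) * (N : ℝ))) ≤ (1 / 2) * Real.sqrt Z := by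
      have h9 : 2 + Real.log (4 * (Z : ℝ) * (N : ℝ)) ≤ ((K : ℝ) + 2) * Real.log Z := by
        linarith
      rw [Real.norm_of_nonneg hlogZ, ← Real.sqrt_eq_rpow,
        Real.norm_of_nonneg (Real.sqrt_nonneg _)] at g2
      have hK : (0 : ℝ) < (K : ℝ) + 2 := by positivity
      calc 110 * (2 + Real.log (4 * (Z : ℝ) * (N : ℝ)))
          ≤ 110 * (((K : ℝ) + 2) * Real.log Z) := by gcongr
        _ ≤ 110 * (((K : ℝ) + 2) * (1 / (220 * ((K : ℝ) + 2)) * Real.sqrt Z)) := by gcongr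
        _ = (1 / 2) * Real.sqrt Z := by
          field_simp
          ring
    have e5 : (110 * (2 + Real.log (4 * (Z : ℝ) * (N : ℝ)))) ^ 4 ≤ ((1 / 2) * Real.sqrt Z) ^ 4 :=
      pow_le_pow_left₀ (by positivity) e4 4
    have e6 : ((1 / 2) * Real.sqrt (Z : ℝ)) ^ 4 = (Z : ℝ) ^ 2 / 16 := by
      have h10 : Real.sqrt (Z : ℝ) ^ 4 = (Z : ℝ) ^ 2 := by
        rw [show (4 : ℕ) = 2 * 2 from rfl, pow_mul, Real.sq_sqrt hZ0.le]
      rw [mul_pow, h10]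
      ring
    rw [e6] at e5
    nlinarith [sq_nonneg (Z : ℝ)]

theorem unm : UnmStmt := unm_aux 64000

end Pool.Agent.K4W.H65
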