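import Pool.Agent.K4W.StmtsW

/-!
# K4W, row WEI (helper65): Weil's bound for the complete sums
-/

set_option autoImplicit false

namespace Pool.Agent.K4W.H65

open Pool.Agent.K4W

theorem wei (wfi : WfiStmt) : WeilStmt := by
  intro p b m hp h5 hb
  have : Fact p.Prime := ⟨hp⟩
  have : NeZero p := ⟨hp.ne_zero⟩
  have hA : ((b : ℤ) : ZMod p) ≠ 0 := by
    intro h
    exact hb ((ZMod.intCast_zmod_eq_zero_iff_dvd b p).1 h)
  have h := wfi p (b : ZMod p) (m : ZMod p) h5 hA
  have e : Pool.Agent.VM.Sc 4 p b m =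
      ∑ x : ZMod p, ZMod.stdAddChar ((b : ZMod p) * x ^ 4 + (m : ZMod p) * x) := by
    unfold Pool.Agent.VM.Sc
    refine Finset.sum_nbij' (fun x : ℕ => (x : ZMod p)) (fun x : ZMod p => x.val) ?_ ?_ ?_ ?_ ?_
    · intro x _
      exact Finset.mem_univ _
    · intro x _
      exact Finset.mem_range.2 (ZMod.val_lt x)
    · intro x hx
      exact ZMod.val_cast_of_lt (Finset.mem_range.1 hx)
    · intro x _
      exact ZMod.natCast_zmod_val x
    · intro x _
      have e1 : ((b : ZMod p) * (x : ZMod p) ^ 4 + (m : ZMod p) * (x : ZMod p)) =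
          (((b * (x : ℤ) ^ 4 + m * (x : ℤ) : ℤ)) : ZMod p) := by
        push_cast
        ring
      rw [e1, ZMod.stdAddChar_coe]
      unfold Pool.Agent.Helper69_Weyl.ee
      congr 1
      push_cast
      ring
  rw [e]
  exact h

end Pool.Agent.K4W.H65
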